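import Pool.Agent.Run7.h658.PB.Klamkin

/-!
# Klamkin's question: perimeter-bisecting points of convex closed curves

If every line through a point `O` bisects the perimeter of a convex closed curve, then the curve is
centrally symmetric with respect to `O`.
-/

open MeasureTheory Metric Set
open scoped ENNReal Pointwise

namespace Pool.Agent.Results.MP_7f2f72_gt.PerimeterBisected

/-- The Euclidean plane. -/
abbrev Plane := EuclideanSpace ℝ (Fin 2)

/-- The length of a part of a curve: its one-dimensional Hausdorff measure. -/
noncomputable def length (A : Set Plane) : ℝ≥0∞ := μH[1] A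

/-- `C` is a convex closed curve: the boundary of a compact convex set with nonempty interior. -/
def IsConvexClosedCurve (C : Set Plane) : Prop :=
  ∃ K : Set Plane, IsCompact K ∧ Convex ℝ K ∧ (interior K).Nonempty ∧ C = frontier K

/-- The line through `O` with the normal vector `u` bisects the perimeter of `C`: the two open half
planes which it bounds contain parts of `C` of equal length. -/
def Bisects (C : Set Plane) (O u : Plane) : Prop :=
  length (C ∩ {x | 0 < inner ℝ u (x - O)}) = length (C ∩ {x | inner ℝ u (x - O) < 0})

/-- The point reflection `x ↦ 2 O - x` maps `C` onto itself. -/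
def CentrallySymmetric (C : Set Plane) (O : Plane) : Prop :=
  (fun x : Plane => (2 : ℝ) • O - x) '' C = C

/-- the coordinates of the plane, as complex numbers, with the origin `O` -/
noncomputable def coord (O : Plane) : Plane ≃ᵢ ℂ :=
  (IsometryEquiv.subRight O).trans Complex.orthonormalBasisOneI.repr.symm.toIsometryEquiv

theorem coord_apply (O x : Plane) : coord O x = Complex.orthonormalBasisOneI.repr.symm (x - O) := rfl

theorem coord_reflect (O x : Plane) : coord O ((2 : ℝ) • O - x) = -coord O x := by
  rw [coord_apply, coord_apply, ← map_neg]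
  congr 1
  module

theorem length_image (O : Plane) (S : Set Plane) :
    (μH[1] : Measure ℂ) (coord O '' S) = length S :=
  (coord O).hausdorffMeasure_image 1 S

theorem inner_coord (O : Plane) (u : ℂ) (x : Plane) :
    inner ℝ u (coord O x) = inner ℝ (Complex.orthonormalBasisOneI.repr u) (x - O) := by
  rw [coord_apply, ← Complex.orthonormalBasisOneI.repr.inner_map_map u,
    LinearIsometryEquiv.apply_symm_apply]

/-- **Klamkin's question has a positive answer.**  Let `C` be a convex closed curve.  Its length is
finite, and for every point `O` of the plane, every line through `O` bisects the perimeter of `C` if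
and only if `C` is centrally symmetric with respect to `O`. -/
theorem result (C : Set Plane) (hC : IsConvexClosedCurve C) :
    length C ≠ ⊤ ∧ ∀ O : Plane, (∀ u : Plane, u ≠ 0 → Bisects C O u) ↔ CentrallySymmetric C O := by
  obtain ⟨K, hK, hc, hi, rfl⟩ := hC
  have hcoordK : ∀ O : Plane, Convex ℝ (coord O '' K) ∧ IsCompact (coord O '' K) ∧
      (interior (coord O '' K)).Nonempty ∧ frontier (coord O '' K) = coord O '' frontier K := by
    intro O
    refine ⟨?_, hK.image (coord O).continuous, ?_, ((coord O).toHomeomorph.image_frontier K).symm⟩
    · have h1 : coord O '' K = Complex.orthonormalBasisOneI.repr.symm '' ((fun x => x - O) '' K) := by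
        rw [image_image]; rfl
      rw [h1]
      have h2 : Convex ℝ ((fun x => x - O) '' K) := by
        have := hc.translate (-O)
        have h3 : (fun x => x - O) = (fun x : Plane => -O + x) := by
          funext x; abel
        rw [h3]; exact this
      exact h2.linear_image Complex.orthonormalBasisOneI.repr.symm.toLinearEquiv.toLinearMap
    · have := (coord O).toHomeomorph.image_interior K
      change (coord O) '' interior K = interior (coord O '' K) at this
      rw [← this]
      exact hi.image _
  refine ⟨?_, fun O => ⟨fun H => ?_, fun H u _ => ?_⟩⟩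
  · obtain ⟨h1, h2, h3, h4⟩ := hcoordK 0
    rw [← length_image 0, ← h4]
    exact Run7.h658.PB.perim_ne_top h1 h2 h3
  · obtain ⟨h1, h2, h3, h4⟩ := hcoordK O
    have key : -(coord O '' K) = coord O '' K := by
      apply Run7.h658.PB.klamkin_zero h1 h2 h3
      intro u hu
      have hu' : Complex.orthonormalBasisOneI.repr u ≠ 0 := by
        rw [Ne, LinearIsometryEquiv.map_eq_zero_iff]; exact hu
      have h5 := H _ hu'
      unfold Bisects at h5
      rw [← length_image O, ← length_image O] at h5
      rw [h4]
      have e1 : coord O '' frontier K ∩ {x | 0 < inner ℝ u x} =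
          coord O '' (frontier K ∩ {x | 0 < inner ℝ (Complex.orthonormalBasisOneI.repr u) (x - O)}) := by
        ext y
        constructor
        · rintro ⟨⟨x, hx, rfl⟩, hy⟩
          refine ⟨x, ⟨hx, ?_⟩, rfl⟩
          show 0 < inner ℝ (Complex.orthonormalBasisOneI.repr u) (x - O)
          rw [← inner_coord]; exact hy
        · rintro ⟨x, ⟨hx, hx2⟩, rfl⟩
          refine ⟨⟨x, hx, rfl⟩, ?_⟩
          show 0 < inner ℝ u (coord O x)
          rw [inner_coord]; exact hx2
      have e2 : coord O '' frontier K ∩ {x | inner ℝ u x < 0} =
          coord O '' (frontier K ∩ {x | inner ℝ (Complex.orthonormalBasisOneI.repr u) (x - O) < 0}) := by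
        ext y
        constructor
        · rintro ⟨⟨x, hx, rfl⟩, hy⟩
          refine ⟨x, ⟨hx, ?_⟩, rfl⟩
          show inner ℝ (Complex.orthonormalBasisOneI.repr u) (x - O) < 0
          rw [← inner_coord]; exact hy
        · rintro ⟨x, ⟨hx, hx2⟩, rfl⟩
          refine ⟨⟨x, hx, rfl⟩, ?_⟩
          show inner ℝ u (coord O x) < 0
          rw [inner_coord]; exact hx2
      rw [e1, e2]
      exact h5
    -- the curve is symmetric
    have key2 : -(frontier (coord O '' K)) = frontier (coord O '' K) := by
      have h6 : frontier (-(coord O '' K)) = -frontier (coord O '' K) :=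
        ((Homeomorph.neg ℂ).preimage_frontier (coord O '' K)).symm
      rw [← h6, key]
    rw [h4] at key2
    unfold CentrallySymmetric
    have hsub : ∀ x ∈ frontier K, (2 : ℝ) • O - x ∈ frontier K := by
      intro x hx
      have h7 : coord O ((2 : ℝ) • O - x) ∈ coord O '' frontier K := by
        rw [coord_reflect, ← Set.mem_neg, key2]
        exact mem_image_of_mem _ hx
      obtain ⟨y, hy, hxy⟩ := h7
      rwa [← (coord O).injective hxy]
    apply subset_antisymm
    · rintro _ ⟨x, hx, rfl⟩
      exact hsub x hx
    · intro x hx
      exact ⟨(2 : ℝ) • O - x, hsub x hx, by simp⟩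
  · -- the converse: the reflection exchanges the two sides
    unfold Bisects length
    set ρ : Plane ≃ᵢ Plane := (IsometryEquiv.subLeft ((2 : ℝ) • O)) with hρ
    have hρa : ∀ x, ρ x = (2 : ℝ) • O - x := fun x => rfl
    have e1 : frontier K ∩ {x | inner ℝ u (x - O) < 0} = ρ '' (frontier K ∩ {x | 0 < inner ℝ u (x - O)}) := by
      have h8 : ∀ x, inner ℝ u (ρ x - O) = -inner ℝ u (x - O) := by
        intro x
        rw [hρa, ← inner_neg_right]
        congr 1
        module
      have h9 : ρ '' frontier K = frontier K := H
      have h10 : ∀ x, ρ (ρ x) = x := fun x => by rw [hρa, hρa]; abel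
      ext y
      constructor
      · rintro ⟨hy, hy2⟩
        refine ⟨ρ y, ⟨?_, ?_⟩, h10 y⟩
        · rw [← h9]; exact mem_image_of_mem _ hy
        · show 0 < inner ℝ u (ρ y - O)
          rw [h8]
          have : inner ℝ u (y - O) < 0 := hy2
          linarith
      · rintro ⟨x, ⟨hx, hx2⟩, rfl⟩
        refine ⟨?_, ?_⟩
        · rw [← h9]; exact mem_image_of_mem _ hx
        · show inner ℝ u (ρ x - O) < 0
          rw [h8]
          have : 0 < inner ℝ u (x - O) := hx2
          linarith
    rw [e1, IsometryEquiv.hausdorffMeasure_image]

end Pool.Agent.Results.MP_7f2f72_gt.PerimeterBisected
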